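import Pool.Agent.helper31.A2.Tab.All

/-!
Generated: rows of the family 0.
-/

namespace Pool.Agent.helper31.A2.Tab

set_option maxRecDepth 100000

/-- the rows -/
def C0 : List (Nat × Nat × List RowD) := [
  (31141888, 36327424, [⟨483183821, 31141888, 36327424, 0, 16648⟩, ⟨499289948, 31141888,
  36327424, 0, 19164⟩]),
  (24256512, 33779712, [⟨475130757, 24256512, 33779712, 0, 16648⟩]),
  (28622848, 39858176, [⟨499289948, 28622848, 39858176, 315, 16937⟩, ⟨547608330, 28622848,
  39858176, 315, 16937⟩]),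
  (47026176, 65486848, [⟨716722668, 47026176, 65486848, 3519, 1724⟩, ⟨765041050, 47026176,
  65486848, 4208, -597⟩]),
  (55492608, 77275136, [⟨716722668, 55492608, 77275136, 3885, -155⟩, ⟨765041050, 55492608,
  77275136, 4551, -2325⟩, ⟨789200241, 55492608, 77275136, 4700, -2777⟩, ⟨837518623, 55492608,
  77275136, 4738, -2584⟩]),
  (65482752, 91181056, [⟨644245094, 65482752, 91181056, 3954, -383⟩, ⟨716722668, 65482752,
  91181056, 4189, -1074⟩, ⟨789200241, 65482752, 91181056, 4443, -1820⟩, ⟨861677814, 65482752,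
  91181056, 4759, -2577⟩]),
  (77271040, 107593728, [⟨692563476, 77271040, 107593728, 4441, -1450⟩, ⟨716722668, 77271040,
  107593728, 4451, -1474⟩, ⟨789200241, 77271040, 107593728, 4471, -1522⟩, ⟨861677814, 77271040,
  107593728, 4491, -1570⟩]),
  (91176960, 126963712, [⟨861677814, 91176960, 126963712, 4502, -1599⟩]),
  (10600448, 20783104, [⟨354334802, 10600448, 20783104, 0, 13156⟩, ⟨426812375, 10600448,
  20783104, 0, 15080⟩]),
  (14843904, 29097984, [⟨354334802, 14843904, 29097984, 0, 13156⟩, ⟨426812375, 14843904,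
  29097984, 0, 15080⟩, ⟨499289948, 14843904, 29097984, 0, 19164⟩, ⟨571767521, 14843904, 29097984,
  639, 13270⟩]),
  (20779008, 40734720, [⟨354334802, 20779008, 40734720, 0, 13156⟩, ⟨426812375, 20779008,
  40734720, 0, 15080⟩, ⟨499289948, 20779008, 40734720, 480, 15770⟩, ⟨571767521, 20779008,
  40734720, 480, 15770⟩, ⟨644245094, 20779008, 40734720, 480, 15770⟩, ⟨716722668, 20779008,
  40734720, 0, 22932⟩]),
  (29093888, 57028608, [⟨354334802, 29093888, 57028608, 803, 9467⟩, ⟨426812375, 29093888,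
  57028608, 1401, 6725⟩, ⟨499289948, 29093888, 57028608, 1370, 9477⟩, ⟨571767521, 29093888,
  57028608, 1370, 9477⟩, ⟨644245094, 29093888, 57028608, 1200, 11046⟩, ⟨716722668, 29093888,
  57028608, 1333, 13469⟩, ⟨789200241, 29093888, 57028608, 3430, 3599⟩, ⟨861677814, 29093888,
  57028608, 3792, 1896⟩]),
  (40730624, 79839232, [⟨354334802, 40730624, 79839232, 1857, 3479⟩, ⟨426812375, 40730624,
  79839232, 1856, 3889⟩, ⟨499289948, 40730624, 79839232, 1854, 3903⟩, ⟨571767521, 40730624,
  79839232, 1855, 4901⟩, ⟨644245094, 40730624, 79839232, 1967, 6537⟩, ⟨716722668, 40730624,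
  79839232, 3444, 2123⟩, ⟨789200241, 40730624, 79839232, 4249, -583⟩, ⟨861677814, 40730624,
  79839232, 4353, -646⟩]),
  (57024512, 111775744, [⟨354334802, 57024512, 111775744, 1529, 4145⟩, ⟨426812375, 57024512,
  111775744, 1551, 4690⟩, ⟨499289948, 57024512, 111775744, 1410, 5728⟩, ⟨571767521, 57024512,
  111775744, 3278, 1287⟩, ⟨644245094, 57024512, 111775744, 4785, -2332⟩, ⟨716722668, 57024512,
  111775744, 4787, -2336⟩, ⟨789200241, 57024512, 111775744, 4791, -2345⟩, ⟨861677814, 57024512,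
  111775744, 4797, -2359⟩]),
  (79835136, 156483584, [⟨789200241, 79835136, 156483584, 4503, -1609⟩, ⟨861677814, 79835136,
  156483584, 4503, -1609⟩])]

theorem sorted0 : sortedY 0 (pcs 0 ss) = true := by decide +kernel

theorem cols0 : colsOK (pcs 0 ss) C0 = true := by decide +kernel

end Pool.Agent.helper31.A2.Tab
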