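import Pool.Agent.helper31.A2.Tab.All

/-!
Generated: rows of the family 3.
-/

namespace Pool.Agent.helper31.A2.Tab

set_option maxRecDepth 100000

/-- the rows -/
def C3 : List (Nat × Nat × List RowD) := [
  (31141888, 36327424, [⟨507343012, 31141888, 36327424, 0, 8484⟩]),
  (24256512, 33779712, [⟨475130757, 24256512, 33779712, 0, 6720⟩, ⟨523449139, 24256512, 33779712,
  0, 8484⟩]),
  (28622848, 39858176, [⟨475130757, 28622848, 39858176, 0, 11720⟩, ⟨523449139, 28622848,
  39858176, 0, 13040⟩, ⟨547608330, 28622848, 39858176, 359, 10756⟩]),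
  (33775616, 47030272, [⟨523449139, 33775616, 47030272, 947, 6425⟩, ⟨595926712, 33775616,
  47030272, 980, 6556⟩, ⟨668404285, 33775616, 47030272, 620, 9931⟩, ⟨740881859, 33775616,
  47030272, 2068, 4238⟩]),
  (39854080, 55496704, [⟨595926712, 39854080, 55496704, 2145, -930⟩, ⟨668404285, 39854080,
  55496704, 1745, 3332⟩, ⟨692563476, 39854080, 55496704, 1924, 3174⟩, ⟨740881859, 39854080,
  55496704, 2771, 112⟩, ⟨765041050, 39854080, 55496704, 3201, -1593⟩]),
  (47026176, 65486848, [⟨668404285, 47026176, 65486848, 2690, -1924⟩, ⟨692563476, 47026176,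
  65486848, 3032, -2899⟩, ⟨740881859, 47026176, 65486848, 3630, -4304⟩, ⟨765041050, 47026176,
  65486848, 3784, -4490⟩, ⟨813359432, 47026176, 65486848, 3962, -4796⟩]),
  (55492608, 77275136, [⟨668404285, 55492608, 77275136, 2897, -2815⟩, ⟨740881859, 55492608,
  77275136, 3523, -3907⟩, ⟨765041050, 55492608, 77275136, 3681, -4083⟩, ⟨813359432, 55492608,
  77275136, 3844, -4239⟩]),
  (91176960, 126963712, [⟨885837005, 91176960, 126963712, 2712, -1835⟩]),
  (10600448, 20783104, [⟨354334802, 10600448, 20783104, 0, 4892⟩, ⟨426812375, 10600448, 20783104,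
  0, 5712⟩]),
  (14843904, 29097984, [⟨354334802, 14843904, 29097984, 0, 4892⟩, ⟨426812375, 14843904, 29097984,
  0, 5712⟩, ⟨499289948, 14843904, 29097984, 0, 8484⟩, ⟨571767521, 14843904, 29097984, 620, 9338⟩,
  ⟨644245094, 14843904, 29097984, 620, 9338⟩]),
  (20779008, 40734720, [⟨354334802, 20779008, 40734720, 0, 4892⟩, ⟨426812375, 20779008, 40734720,
  0, 5712⟩, ⟨499289948, 20779008, 40734720, 0, 12388⟩, ⟨571767521, 20779008, 40734720, 506,
  10590⟩, ⟨644245094, 20779008, 40734720, 505, 10603⟩, ⟨716722668, 20779008, 40734720, 0, 18500⟩,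
  ⟨789200241, 20779008, 40734720, 2433, 4972⟩]),
  (29093888, 57028608, [⟨354334802, 29093888, 57028608, 0, 8800⟩, ⟨426812375, 29093888, 57028608,
  159, 9390⟩, ⟨499289948, 29093888, 57028608, 990, 5479⟩, ⟨571767521, 29093888, 57028608, 1392,
  3587⟩, ⟨644245094, 29093888, 57028608, 1208, 6064⟩, ⟨716722668, 29093888, 57028608, 1395,
  7376⟩, ⟨789200241, 29093888, 57028608, 3304, -1609⟩, ⟨861677814, 29093888, 57028608, 3791,
  -3901⟩, ⟨885837005, 29093888, 57028608, 3791, -3901⟩]),
  (40730624, 79839232, [⟨354334802, 40730624, 79839232, 1391, 947⟩, ⟨426812375, 40730624,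
  79839232, 1658, 50⟩, ⟨499289948, 40730624, 79839232, 1773, -336⟩, ⟨571767521, 40730624,
  79839232, 2034, -788⟩, ⟨644245094, 40730624, 79839232, 2411, -907⟩, ⟨716722668, 40730624,
  79839232, 3232, -2897⟩, ⟨789200241, 40730624, 79839232, 3955, -4975⟩, ⟨861677814, 40730624,
  79839232, 4143, -5429⟩, ⟨885837005, 40730624, 79839232, 4143, -5366⟩]),
  (57024512, 111775744, [⟨354334802, 57024512, 111775744, 1561, -550⟩, ⟨426812375, 57024512,
  111775744, 1747, -802⟩, ⟨499289948, 57024512, 111775744, 1905, -910⟩, ⟨571767521, 57024512,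
  111775744, 2230, -1478⟩, ⟨644245094, 57024512, 111775744, 2866, -2850⟩, ⟨716722668, 57024512,
  111775744, 3326, -3571⟩, ⟨789200241, 57024512, 111775744, 3715, -4002⟩, ⟨861677814, 57024512,
  111775744, 3842, -4087⟩, ⟨885837005, 57024512, 111775744, 3842, -4069⟩])]

theorem sorted3 : sortedY 0 (pcs 3 ss) = true := by decide +kernel

theorem cols3 : colsOK (pcs 3 ss) C3 = true := by decide +kernel

end Pool.Agent.helper31.A2.Tab
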