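import Pool.Agent.helper31.A2.Tab.All

/-!
Generated: rows of the family 4.
-/

namespace Pool.Agent.helper31.A2.Tab

set_option maxRecDepth 100000

/-- the rows -/
def C4 : List (Nat × Nat × List RowD) := [
  (31141888, 36327424, [⟨507343012, 31141888, 36327424, 0, 7292⟩]),
  (98791424, 115232768, [⟨885837005, 98791424, 115232768, 2057, -1287⟩]),
  (24256512, 33779712, [⟨475130757, 24256512, 33779712, 0, 5868⟩, ⟨523449139, 24256512, 33779712,
  0, 7292⟩]),
  (28622848, 39858176, [⟨523449139, 28622848, 39858176, 0, 12040⟩, ⟨547608330, 28622848,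
  39858176, 432, 9215⟩]),
  (33775616, 47030272, [⟨523449139, 33775616, 47030272, 1157, 3958⟩, ⟨595926712, 33775616,
  47030272, 1048, 5162⟩, ⟨668404285, 33775616, 47030272, 718, 8320⟩, ⟨740881859, 33775616,
  47030272, 2087, 2744⟩]),
  (39854080, 55496704, [⟨595926712, 39854080, 55496704, 2094, -1551⟩, ⟨668404285, 39854080,
  55496704, 1807, 1945⟩, ⟨692563476, 39854080, 55496704, 1991, 1649⟩, ⟨740881859, 39854080,
  55496704, 2733, -1006⟩, ⟨765041050, 39854080, 55496704, 3105, -2444⟩]),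
  (47026176, 65486848, [⟨668404285, 47026176, 65486848, 2684, -2952⟩, ⟨692563476, 47026176,
  65486848, 2977, -3769⟩, ⟨740881859, 47026176, 65486848, 3305, -3943⟩, ⟨765041050, 47026176,
  65486848, 3461, -4218⟩, ⟨813359432, 47026176, 65486848, 3638, -4584⟩]),
  (55492608, 77275136, [⟨813359432, 55492608, 77275136, 3486, -3866⟩]),
  (91176960, 126963712, [⟨813359432, 91176960, 126963712, 2229, -1512⟩, ⟨885837005, 91176960,
  126963712, 2275, -1541⟩]),
  (10600448, 20783104, [⟨354334802, 10600448, 20783104, 0, 4352⟩, ⟨426812375, 10600448, 20783104,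
  0, 5032⟩]),
  (14843904, 29097984, [⟨354334802, 14843904, 29097984, 0, 4352⟩, ⟨426812375, 14843904, 29097984,
  0, 5032⟩, ⟨499289948, 14843904, 29097984, 0, 7292⟩, ⟨571767521, 14843904, 29097984, 590, 8784⟩,
  ⟨644245094, 14843904, 29097984, 590, 8784⟩]),
  (20779008, 40734720, [⟨354334802, 20779008, 40734720, 0, 4352⟩, ⟨426812375, 20779008, 40734720,
  0, 5032⟩, ⟨499289948, 20779008, 40734720, 0, 11440⟩, ⟨571767521, 20779008, 40734720, 523,
  9520⟩, ⟨644245094, 20779008, 40734720, 522, 9533⟩, ⟨716722668, 20779008, 40734720, 18, 17295⟩,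
  ⟨789200241, 20779008, 40734720, 2368, 3896⟩]),
  (29093888, 57028608, [⟨354334802, 29093888, 57028608, 0, 7892⟩, ⟨426812375, 29093888, 57028608,
  99, 8763⟩, ⟨499289948, 29093888, 57028608, 988, 4579⟩, ⟨571767521, 29093888, 57028608, 1381,
  2730⟩, ⟨644245094, 29093888, 57028608, 1264, 4713⟩, ⟨716722668, 29093888, 57028608, 1459,
  5753⟩, ⟨789200241, 29093888, 57028608, 3216, -2517⟩, ⟨861677814, 29093888, 57028608, 3697,
  -4781⟩, ⟨885837005, 29093888, 57028608, 3697, -4781⟩]),
  (40730624, 79839232, [⟨354334802, 40730624, 79839232, 1292, 558⟩, ⟨426812375, 40730624,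
  79839232, 1572, -383⟩, ⟨499289948, 40730624, 79839232, 1720, -880⟩, ⟨571767521, 40730624,
  79839232, 1993, -1435⟩, ⟨644245094, 40730624, 79839232, 2419, -1954⟩, ⟨716722668, 40730624,
  79839232, 3167, -3823⟩, ⟨789200241, 40730624, 79839232, 3660, -4867⟩, ⟨861677814, 40730624,
  79839232, 3846, -5397⟩, ⟨885837005, 40730624, 79839232, 3846, -5378⟩]),
  (57024512, 111775744, [⟨354334802, 57024512, 111775744, 1499, -989⟩, ⟨426812375, 57024512,
  111775744, 1697, -1326⟩, ⟨499289948, 57024512, 111775744, 1903, -1644⟩, ⟨571767521, 57024512,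
  111775744, 2157, -2058⟩, ⟨644245094, 57024512, 111775744, 2581, -2723⟩, ⟨716722668, 57024512,
  111775744, 2987, -3212⟩, ⟨789200241, 57024512, 111775744, 3352, -3608⟩, ⟨861677814, 57024512,
  111775744, 3476, -3733⟩, ⟨885837005, 57024512, 111775744, 3476, -3733⟩]),
  (79835136, 156483584, [⟨789200241, 79835136, 156483584, 2520, -1941⟩, ⟨885837005, 79835136,
  156483584, 2632, -2026⟩])]

theorem sorted4 : sortedY 0 (pcs 4 ss) = true := by decide +kernel

theorem cols4 : colsOK (pcs 4 ss) C4 = true := by decide +kernel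

end Pool.Agent.helper31.A2.Tab
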