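import Pool.Agent.helper31.A2.Tab.S0
import Pool.Agent.helper31.A2.Tab.S1
import Pool.Agent.helper31.A2.Tab.S2
import Pool.Agent.helper31.A2.Tab.S3
import Pool.Agent.helper31.A2.Tab.S4
import Pool.Agent.helper31.A2.Tab.S5
import Pool.Agent.helper31.A2.Tab.S6
import Pool.Agent.helper31.A2.Tab.S7
import Pool.Agent.helper31.A2.Tab.S8
import Pool.Agent.helper31.A2.Tab.S9
import Pool.Agent.helper31.A2.Tab.S10
import Pool.Agent.helper31.A2.Tab.S11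
import Pool.Agent.helper31.A2.Tab.S12
import Pool.Agent.helper31.A2.Tab.S13
import Pool.Agent.helper31.A2.Tab.S14
import Pool.Agent.helper31.A2.Tab.S15
import Pool.Agent.helper31.A2.Tab.S16
import Pool.Agent.helper31.A2.Tab.S17
import Pool.Agent.helper31.A2.Tab.S18
import Pool.Agent.helper31.A2.Tab.S19
import Pool.Agent.helper31.A2.Tab.S20
import Pool.Agent.helper31.A2.Tab.S21
import Pool.Agent.helper31.A2.Tab.S22
import Pool.Agent.helper31.A2.Tab.S23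
import Pool.Agent.helper31.A2.Tab.S24
import Pool.Agent.helper31.A2.Tab.S25
import Pool.Agent.helper31.A2.Tab.S26
import Pool.Agent.helper31.A2.Tab.S27
import Pool.Agent.helper31.A2.Tab.S28
import Pool.Agent.helper31.A2.Tab.S29
import Pool.Agent.helper31.A2.Tab.S30
import Pool.Agent.helper31.A2.Tab.S31
import Pool.Agent.helper31.A2.Tab.S32
import Pool.Agent.helper31.A2.Tab.S33

/-!
Generated: the table.
-/

namespace Pool.Agent.helper31.A2.Tab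

set_option maxRecDepth 100000

/-- the strips, sorted; with the number of the group -/
def ssI : List (Nat × StripD) := [
  (0, s0), (1, s1), (2, s2), (2, s3), (2, s4), (2, s5), (2, s6), (2, s7), (2, s8), (2, s9),
  (2, s10), (2, s11), (2, s12), (2, s13), (2, s14), (2, s15), (2, s16), (2, s17), (2, s18),
  (0, s19), (1, s20), (2, s21), (2, s22), (1, s23), (2, s24), (1, s25), (2, s26), (1, s27),
  (2, s28), (1, s29), (2, s30), (1, s31), (2, s32), (0, s33), (1, s34), (2, s35), (1, s36),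
  (1, s37), (2, s38), (1, s39), (2, s40), (1, s41), (2, s42), (1, s43), (2, s44), (1, s45),
  (0, s46), (1, s47), (2, s48), (1, s49), (2, s50), (1, s51), (2, s52), (1, s53), (1, s54),
  (2, s55), (1, s56), (2, s57), (1, s58), (0, s59), (1, s60), (2, s61), (1, s62), (2, s63),
  (1, s64), (2, s65), (1, s66), (1, s67), (2, s68), (1, s69), (2, s70), (1, s71), (0, s72),
  (1, s73), (2, s74), (0, s75), (1, s76), (2, s77), (0, s78), (1, s79), (2, s80), (0, s81),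
  (1, s82), (0, s83), (2, s84), (0, s85), (1, s86), (2, s87), (0, s88), (1, s89), (0, s90),
  (2, s91), (1, s92), (0, s93), (2, s94), (1, s95), (0, s96), (0, s97), (1, s98), (2, s99),
  (0, s100), (1, s101), (2, s102), (0, s103), (1, s104), (0, s105), (2, s106), (1, s107),
  (0, s108), (2, s109), (0, s110), (1, s111), (2, s112), (0, s113), (1, s114), (0, s115),
  (2, s116), (1, s117), (0, s118), (2, s119), (0, s120), (1, s121), (0, s122), (1, s123),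
  (2, s124), (0, s125), (1, s126), (2, s127), (0, s128), (1, s129), (2, s130), (0, s131),
  (1, s132), (2, s133), (0, s134), (1, s135), (2, s136), (0, s137), (1, s138), (2, s139),
  (0, s140), (1, s141), (2, s142), (0, s143), (1, s144), (2, s145), (0, s146), (1, s147),
  (2, s148), (0, s149), (1, s150), (2, s151), (0, s152), (1, s153), (2, s154), (0, s155),
  (1, s156), (2, s157), (0, s158), (1, s159), (2, s160), (0, s161), (1, s162), (2, s163),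
  (0, s164), (1, s165), (2, s166), (0, s167), (1, s168), (2, s169), (0, s170), (1, s171),
  (2, s172), (0, s173), (1, s174), (2, s175), (0, s176), (1, s177), (2, s178), (0, s179),
  (1, s180), (2, s181), (0, s182), (1, s183), (2, s184), (0, s185), (1, s186), (2, s187),
  (0, s188), (1, s189), (2, s190), (0, s191), (1, s192), (2, s193), (0, s194), (1, s195),
  (2, s196), (0, s197), (1, s198), (2, s199), (0, s200), (1, s201), (2, s202), (0, s203),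
  (1, s204), (2, s205), (0, s206), (1, s207), (2, s208), (0, s209), (1, s210), (2, s211),
  (0, s212), (1, s213), (2, s214), (0, s215), (1, s216), (2, s217), (0, s218), (1, s219),
  (2, s220), (0, s221), (1, s222), (2, s223), (0, s224), (1, s225), (2, s226), (0, s227),
  (1, s228), (2, s229), (0, s230), (1, s231), (2, s232), (0, s233), (1, s234), (2, s235),
  (0, s236), (1, s237), (2, s238), (1, s239), (2, s240), (1, s241), (2, s242), (1, s243),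
  (2, s244), (1, s245), (2, s246), (1, s247), (2, s248), (1, s249), (2, s250)]

def ss : List StripD := ssI.map Prod.snd

def grp (k lo hi : Nat) : GrpD := ⟨lo, hi, (ssI.filter (fun q => Nat.beq q.1 k)).map Prod.snd⟩

def G : List GrpD := [grp 0 0 37962506, grp 1 37962506 53687091, grp 2 53687091 120124867]

theorem G_cov : covG 0 G = true := by decide +kernel

theorem G_sub : ∀ g ∈ G, ∀ s ∈ g.strips, s ∈ ss := by
  have h : ∀ k lo hi : Nat, ∀ s ∈ (grp k lo hi).strips, s ∈ ss := by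
    intro k lo hi s hs
    obtain ⟨q, hq, rfl⟩ := List.mem_map.1 hs
    exact List.mem_map.2 ⟨q, List.mem_of_mem_filter hq, rfl⟩
  intro g hg
  simp only [G, List.mem_cons, List.not_mem_nil, or_false] at hg
  rcases hg with rfl | rfl | rfl <;> exact h _ _ _

theorem ss_ok : ∀ s ∈ ss, s.ok = true := by
  have h : ∀ q ∈ ssI, q.2.ok = true := by
    unfold ssI
    exact List.forall_mem_cons.2 ⟨ok0, List.forall_mem_cons.2 ⟨ok1, List.forall_mem_cons.2 ⟨ok2,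
      List.forall_mem_cons.2 ⟨ok3, List.forall_mem_cons.2 ⟨ok4, List.forall_mem_cons.2 ⟨ok5,
      List.forall_mem_cons.2 ⟨ok6, List.forall_mem_cons.2 ⟨ok7, List.forall_mem_cons.2 ⟨ok8,
      List.forall_mem_cons.2 ⟨ok9, List.forall_mem_cons.2 ⟨ok10, List.forall_mem_cons.2 ⟨ok11,
      List.forall_mem_cons.2 ⟨ok12, List.forall_mem_cons.2 ⟨ok13, List.forall_mem_cons.2 ⟨ok14,
      List.forall_mem_cons.2 ⟨ok15, List.forall_mem_cons.2 ⟨ok16, List.forall_mem_cons.2 ⟨ok17,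
      List.forall_mem_cons.2 ⟨ok18, List.forall_mem_cons.2 ⟨ok19, List.forall_mem_cons.2 ⟨ok20,
      List.forall_mem_cons.2 ⟨ok21, List.forall_mem_cons.2 ⟨ok22, List.forall_mem_cons.2 ⟨ok23,
      List.forall_mem_cons.2 ⟨ok24, List.forall_mem_cons.2 ⟨ok25, List.forall_mem_cons.2 ⟨ok26,
      List.forall_mem_cons.2 ⟨ok27, List.forall_mem_cons.2 ⟨ok28, List.forall_mem_cons.2 ⟨ok29,
      List.forall_mem_cons.2 ⟨ok30, List.forall_mem_cons.2 ⟨ok31, List.forall_mem_cons.2 ⟨ok32,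
      List.forall_mem_cons.2 ⟨ok33, List.forall_mem_cons.2 ⟨ok34, List.forall_mem_cons.2 ⟨ok35,
      List.forall_mem_cons.2 ⟨ok36, List.forall_mem_cons.2 ⟨ok37, List.forall_mem_cons.2 ⟨ok38,
      List.forall_mem_cons.2 ⟨ok39, List.forall_mem_cons.2 ⟨ok40, List.forall_mem_cons.2 ⟨ok41,
      List.forall_mem_cons.2 ⟨ok42, List.forall_mem_cons.2 ⟨ok43, List.forall_mem_cons.2 ⟨ok44,
      List.forall_mem_cons.2 ⟨ok45, List.forall_mem_cons.2 ⟨ok46, List.forall_mem_cons.2 ⟨ok47,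
      List.forall_mem_cons.2 ⟨ok48, List.forall_mem_cons.2 ⟨ok49, List.forall_mem_cons.2 ⟨ok50,
      List.forall_mem_cons.2 ⟨ok51, List.forall_mem_cons.2 ⟨ok52, List.forall_mem_cons.2 ⟨ok53,
      List.forall_mem_cons.2 ⟨ok54, List.forall_mem_cons.2 ⟨ok55, List.forall_mem_cons.2 ⟨ok56,
      List.forall_mem_cons.2 ⟨ok57, List.forall_mem_cons.2 ⟨ok58, List.forall_mem_cons.2 ⟨ok59,
      List.forall_mem_cons.2 ⟨ok60, List.forall_mem_cons.2 ⟨ok61, List.forall_mem_cons.2 ⟨ok62,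
      List.forall_mem_cons.2 ⟨ok63, List.forall_mem_cons.2 ⟨ok64, List.forall_mem_cons.2 ⟨ok65,
      List.forall_mem_cons.2 ⟨ok66, List.forall_mem_cons.2 ⟨ok67, List.forall_mem_cons.2 ⟨ok68,
      List.forall_mem_cons.2 ⟨ok69, List.forall_mem_cons.2 ⟨ok70, List.forall_mem_cons.2 ⟨ok71,
      List.forall_mem_cons.2 ⟨ok72, List.forall_mem_cons.2 ⟨ok73, List.forall_mem_cons.2 ⟨ok74,
      List.forall_mem_cons.2 ⟨ok75, List.forall_mem_cons.2 ⟨ok76, List.forall_mem_cons.2 ⟨ok77,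
      List.forall_mem_cons.2 ⟨ok78, List.forall_mem_cons.2 ⟨ok79, List.forall_mem_cons.2 ⟨ok80,
      List.forall_mem_cons.2 ⟨ok81, List.forall_mem_cons.2 ⟨ok82, List.forall_mem_cons.2 ⟨ok83,
      List.forall_mem_cons.2 ⟨ok84, List.forall_mem_cons.2 ⟨ok85, List.forall_mem_cons.2 ⟨ok86,
      List.forall_mem_cons.2 ⟨ok87, List.forall_mem_cons.2 ⟨ok88, List.forall_mem_cons.2 ⟨ok89,
      List.forall_mem_cons.2 ⟨ok90, List.forall_mem_cons.2 ⟨ok91, List.forall_mem_cons.2 ⟨ok92,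
      List.forall_mem_cons.2 ⟨ok93, List.forall_mem_cons.2 ⟨ok94, List.forall_mem_cons.2 ⟨ok95,
      List.forall_mem_cons.2 ⟨ok96, List.forall_mem_cons.2 ⟨ok97, List.forall_mem_cons.2 ⟨ok98,
      List.forall_mem_cons.2 ⟨ok99, List.forall_mem_cons.2 ⟨ok100, List.forall_mem_cons.2 ⟨ok101,
      List.forall_mem_cons.2 ⟨ok102, List.forall_mem_cons.2 ⟨ok103, List.forall_mem_cons.2 ⟨ok104,
      List.forall_mem_cons.2 ⟨ok105, List.forall_mem_cons.2 ⟨ok106, List.forall_mem_cons.2 ⟨ok107,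
      List.forall_mem_cons.2 ⟨ok108, List.forall_mem_cons.2 ⟨ok109, List.forall_mem_cons.2 ⟨ok110,
      List.forall_mem_cons.2 ⟨ok111, List.forall_mem_cons.2 ⟨ok112, List.forall_mem_cons.2 ⟨ok113,
      List.forall_mem_cons.2 ⟨ok114, List.forall_mem_cons.2 ⟨ok115, List.forall_mem_cons.2 ⟨ok116,
      List.forall_mem_cons.2 ⟨ok117, List.forall_mem_cons.2 ⟨ok118, List.forall_mem_cons.2 ⟨ok119,
      List.forall_mem_cons.2 ⟨ok120, List.forall_mem_cons.2 ⟨ok121, List.forall_mem_cons.2 ⟨ok122,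
      List.forall_mem_cons.2 ⟨ok123, List.forall_mem_cons.2 ⟨ok124, List.forall_mem_cons.2 ⟨ok125,
      List.forall_mem_cons.2 ⟨ok126, List.forall_mem_cons.2 ⟨ok127, List.forall_mem_cons.2 ⟨ok128,
      List.forall_mem_cons.2 ⟨ok129, List.forall_mem_cons.2 ⟨ok130, List.forall_mem_cons.2 ⟨ok131,
      List.forall_mem_cons.2 ⟨ok132, List.forall_mem_cons.2 ⟨ok133, List.forall_mem_cons.2 ⟨ok134,
      List.forall_mem_cons.2 ⟨ok135, List.forall_mem_cons.2 ⟨ok136, List.forall_mem_cons.2 ⟨ok137,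
      List.forall_mem_cons.2 ⟨ok138, List.forall_mem_cons.2 ⟨ok139, List.forall_mem_cons.2 ⟨ok140,
      List.forall_mem_cons.2 ⟨ok141, List.forall_mem_cons.2 ⟨ok142, List.forall_mem_cons.2 ⟨ok143,
      List.forall_mem_cons.2 ⟨ok144, List.forall_mem_cons.2 ⟨ok145, List.forall_mem_cons.2 ⟨ok146,
      List.forall_mem_cons.2 ⟨ok147, List.forall_mem_cons.2 ⟨ok148, List.forall_mem_cons.2 ⟨ok149,
      List.forall_mem_cons.2 ⟨ok150, List.forall_mem_cons.2 ⟨ok151, List.forall_mem_cons.2 ⟨ok152,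
      List.forall_mem_cons.2 ⟨ok153, List.forall_mem_cons.2 ⟨ok154, List.forall_mem_cons.2 ⟨ok155,
      List.forall_mem_cons.2 ⟨ok156, List.forall_mem_cons.2 ⟨ok157, List.forall_mem_cons.2 ⟨ok158,
      List.forall_mem_cons.2 ⟨ok159, List.forall_mem_cons.2 ⟨ok160, List.forall_mem_cons.2 ⟨ok161,
      List.forall_mem_cons.2 ⟨ok162, List.forall_mem_cons.2 ⟨ok163, List.forall_mem_cons.2 ⟨ok164,
      List.forall_mem_cons.2 ⟨ok165, List.forall_mem_cons.2 ⟨ok166, List.forall_mem_cons.2 ⟨ok167,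
      List.forall_mem_cons.2 ⟨ok168, List.forall_mem_cons.2 ⟨ok169, List.forall_mem_cons.2 ⟨ok170,
      List.forall_mem_cons.2 ⟨ok171, List.forall_mem_cons.2 ⟨ok172, List.forall_mem_cons.2 ⟨ok173,
      List.forall_mem_cons.2 ⟨ok174, List.forall_mem_cons.2 ⟨ok175, List.forall_mem_cons.2 ⟨ok176,
      List.forall_mem_cons.2 ⟨ok177, List.forall_mem_cons.2 ⟨ok178, List.forall_mem_cons.2 ⟨ok179,
      List.forall_mem_cons.2 ⟨ok180, List.forall_mem_cons.2 ⟨ok181, List.forall_mem_cons.2 ⟨ok182,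
      List.forall_mem_cons.2 ⟨ok183, List.forall_mem_cons.2 ⟨ok184, List.forall_mem_cons.2 ⟨ok185,
      List.forall_mem_cons.2 ⟨ok186, List.forall_mem_cons.2 ⟨ok187, List.forall_mem_cons.2 ⟨ok188,
      List.forall_mem_cons.2 ⟨ok189, List.forall_mem_cons.2 ⟨ok190, List.forall_mem_cons.2 ⟨ok191,
      List.forall_mem_cons.2 ⟨ok192, List.forall_mem_cons.2 ⟨ok193, List.forall_mem_cons.2 ⟨ok194,
      List.forall_mem_cons.2 ⟨ok195, List.forall_mem_cons.2 ⟨ok196, List.forall_mem_cons.2 ⟨ok197,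
      List.forall_mem_cons.2 ⟨ok198, List.forall_mem_cons.2 ⟨ok199, List.forall_mem_cons.2 ⟨ok200,
      List.forall_mem_cons.2 ⟨ok201, List.forall_mem_cons.2 ⟨ok202, List.forall_mem_cons.2 ⟨ok203,
      List.forall_mem_cons.2 ⟨ok204, List.forall_mem_cons.2 ⟨ok205, List.forall_mem_cons.2 ⟨ok206,
      List.forall_mem_cons.2 ⟨ok207, List.forall_mem_cons.2 ⟨ok208, List.forall_mem_cons.2 ⟨ok209,
      List.forall_mem_cons.2 ⟨ok210, List.forall_mem_cons.2 ⟨ok211, List.forall_mem_cons.2 ⟨ok212,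
      List.forall_mem_cons.2 ⟨ok213, List.forall_mem_cons.2 ⟨ok214, List.forall_mem_cons.2 ⟨ok215,
      List.forall_mem_cons.2 ⟨ok216, List.forall_mem_cons.2 ⟨ok217, List.forall_mem_cons.2 ⟨ok218,
      List.forall_mem_cons.2 ⟨ok219, List.forall_mem_cons.2 ⟨ok220, List.forall_mem_cons.2 ⟨ok221,
      List.forall_mem_cons.2 ⟨ok222, List.forall_mem_cons.2 ⟨ok223, List.forall_mem_cons.2 ⟨ok224,
      List.forall_mem_cons.2 ⟨ok225, List.forall_mem_cons.2 ⟨ok226, List.forall_mem_cons.2 ⟨ok227,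
      List.forall_mem_cons.2 ⟨ok228, List.forall_mem_cons.2 ⟨ok229, List.forall_mem_cons.2 ⟨ok230,
      List.forall_mem_cons.2 ⟨ok231, List.forall_mem_cons.2 ⟨ok232, List.forall_mem_cons.2 ⟨ok233,
      List.forall_mem_cons.2 ⟨ok234, List.forall_mem_cons.2 ⟨ok235, List.forall_mem_cons.2 ⟨ok236,
      List.forall_mem_cons.2 ⟨ok237, List.forall_mem_cons.2 ⟨ok238, List.forall_mem_cons.2 ⟨ok239,
      List.forall_mem_cons.2 ⟨ok240, List.forall_mem_cons.2 ⟨ok241, List.forall_mem_cons.2 ⟨ok242,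
      List.forall_mem_cons.2 ⟨ok243, List.forall_mem_cons.2 ⟨ok244, List.forall_mem_cons.2 ⟨ok245,
      List.forall_mem_cons.2 ⟨ok246, List.forall_mem_cons.2 ⟨ok247, List.forall_mem_cons.2 ⟨ok248,
      List.forall_mem_cons.2 ⟨ok249, List.forall_mem_cons.2 ⟨ok250, fun _ h => absurd h List.not_mem_nil⟩⟩⟩⟩⟩⟩⟩⟩⟩⟩⟩⟩⟩⟩⟩⟩⟩⟩⟩⟩⟩⟩⟩⟩⟩⟩⟩⟩⟩⟩⟩⟩⟩⟩⟩⟩⟩⟩⟩⟩⟩⟩⟩⟩⟩⟩⟩⟩⟩⟩⟩⟩⟩⟩⟩⟩⟩⟩⟩⟩⟩⟩⟩⟩⟩⟩⟩⟩⟩⟩⟩⟩⟩⟩⟩⟩⟩⟩⟩⟩⟩⟩⟩⟩⟩⟩⟩⟩⟩⟩⟩⟩⟩⟩⟩⟩⟩⟩⟩⟩⟩⟩⟩⟩⟩⟩⟩⟩⟩⟩⟩⟩⟩⟩⟩⟩⟩⟩⟩⟩⟩⟩⟩⟩⟩⟩⟩⟩⟩⟩⟩⟩⟩⟩⟩⟩⟩⟩⟩⟩⟩⟩⟩⟩⟩⟩⟩⟩⟩⟩⟩⟩⟩⟩⟩⟩⟩⟩⟩⟩⟩⟩⟩⟩⟩⟩⟩⟩⟩⟩⟩⟩⟩⟩⟩⟩⟩⟩⟩⟩⟩⟩⟩⟩⟩⟩⟩⟩⟩⟩⟩⟩⟩⟩⟩⟩⟩⟩⟩⟩⟩⟩⟩⟩⟩⟩⟩⟩⟩⟩⟩⟩⟩⟩⟩⟩⟩⟩⟩⟩⟩⟩⟩⟩⟩⟩⟩⟩⟩⟩⟩⟩⟩⟩⟩⟩⟩⟩⟩⟩⟩⟩⟩⟩⟩⟩⟩⟩⟩⟩⟩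
  intro s hs
  obtain ⟨q, hq, rfl⟩ := List.mem_map.1 hs
  exact h q hq

end Pool.Agent.helper31.A2.Tab
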